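import Pool.Agent.W307.AT.Ht
import Pool.Agent.W307.RT.Tors
import Pool.Agent.W683.AT.Chi
import Pool.Agent.W605.AT.DSC

/-!
# Project AT: assembly
-/

set_option autoImplicit false

namespace Pool.Agent.W307.AT

open Finset Pool.Agent.W307.RT Pool.Agent.W307.FK

open Classical in
theorem main_of (h1 : CHI) (h2 : DSC) : ∃ C : ℝ, ∀ (F : Type) [Field F] [NumberField F]
    [IsGalois ℚ F] (χ : (F ≃ₐ[ℚ] F) →* ℤˣ), ∃ D : ℤ, Squarefree D ∧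
    (∃ s : F, s ^ 2 = (D : F) ∧ ∀ σ : F ≃ₐ[ℚ] F, σ s = (((χ σ : ℤˣ) : ℤ) : F) * s) ∧
    ∀ H : ℕ, ∑ c ∈ Cv 2 H, (4 : ℝ) ^ Module.finrank ℤ (Part F χ (Sh c.1 c.2)) ≤
      C * 128 ^ D.natAbs.primeFactors.card * (Cv 2 H).card := by
  obtain ⟨C, -, hC⟩ := twist_height
  refine ⟨C, fun F _ _ _ χ => ?_⟩
  obtain ⟨D, s, hD, hs, hσ⟩ := h1 F χ
  refine ⟨D, hD, ⟨s, hs, hσ⟩, fun H => ?_⟩
  have hD0 : D ≠ 0 := hD.ne_zero
  refine le_trans (sum_le_sum fun c hc => ?_) (hC D hD0 H)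
  have hc' := hc
  unfold Cv at hc'
  obtain ⟨_, a1, a2, _, _, a3⟩ := mem_filter.1 hc'
  obtain ⟨F', -, hF'⟩ := Pool.Agent.W513.FK.parf
  obtain ⟨-, -, -, -, -, e1, e2, e3, hr, -, -⟩ := hF' c a1 a3
  have hfin := Pool.Agent.W307.RG.fin_tw a1 hr hD0
  obtain ⟨φ, hφ⟩ := h2 F χ D s hD0 hs hσ c.1 c.2
  have h3 : Module.finrank ℤ (Part F χ (Sh c.1 c.2)) ≤
      Module.finrank ℤ (Sh (D ^ 2 * c.1) (D ^ 3 * c.2)).toAffine.Point :=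
    LinearMap.finrank_le_finrank_of_injective (f := φ.toIntLinearMap) hφ
  calc (4 : ℝ) ^ Module.finrank ℤ (Part F χ (Sh c.1 c.2))
      ≤ 4 ^ Module.finrank ℤ (Sh (D ^ 2 * c.1) (D ^ 3 * c.2)).toAffine.Point :=
        pow_le_pow_right₀ (by norm_num) h3
    _ = _ := by
        generalize Module.finrank ℤ (Sh (D ^ 2 * c.1) (D ^ 3 * c.2)).toAffine.Point = n
        rw [← pow_mul, Nat.mul_comm, pow_mul]
        norm_num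

open Classical in
theorem main : ∃ C : ℝ, ∀ (F : Type) [Field F] [NumberField F]
    [IsGalois ℚ F] (χ : (F ≃ₐ[ℚ] F) →* ℤˣ), ∃ D : ℤ, Squarefree D ∧
    (∃ s : F, s ^ 2 = (D : F) ∧ ∀ σ : F ≃ₐ[ℚ] F, σ s = (((χ σ : ℤˣ) : ℤ) : F) * s) ∧
    ∀ H : ℕ, ∑ c ∈ Cv 2 H, (4 : ℝ) ^ Module.finrank ℤ (Part F χ (Sh c.1 c.2)) ≤
      C * 128 ^ D.natAbs.primeFactors.card * (Cv 2 H).card :=
  main_of Pool.Agent.W683.AT.chi Pool.Agent.W605.AT.dsc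

end Pool.Agent.W307.AT
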