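import Pool.Agent.W307.AT.Stm
import Pool.Agent.W307.FK.Main
import Pool.Agent.W307.RG.MqTw

/-!
# The twists of the curves with full rational 2-torsion, ordered by height, uniformly in the twist

Adaptation of `Pool.Agent.W410.FK.FINH` (helper410).
-/

set_option autoImplicit false

namespace Pool.Agent.W307.AT

open Finset Pool.Agent.W262.RK Pool.Agent.W307.RT Pool.Agent.W307.RS Pool.Agent.W307.SE
open Pool.Agent.W307.FK Pool.Agent.W410.FK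

/-- from the box to the curves, with an explicit dependence of the constant -/
lemma final_uni {m k : ℕ} (hk : 1 ≤ k) (hL : LOW m k) (C0' : ℕ) (F : ℤ × ℤ → ℤ × ℤ)
    (hF : ∀ H : ℕ, Set.InjOn F (Cv m H : Set (ℤ × ℤ)) ∧ ∀ c ∈ Cv m H,
      (F c).1.natAbs ^ k ≤ C0' * H ∧ (F c).2.natAbs ^ k ≤ C0' * H) :
    ∃ K : ℝ, 0 ≤ K ∧ ∀ (R g : ℤ × ℤ → ℝ), (∀ t, 0 ≤ g t) →
      (∀ H : ℕ, ∀ c ∈ Cv m H, R c ≤ g (F c)) → ∀ C : ℝ, 0 ≤ C →
      (∀ T : ℕ, 1 ≤ T → ∑ t ∈ Box T, g t ≤ C * (T : ℝ) ^ 2) →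
      ∀ H : ℕ, ∑ c ∈ Cv m H, R c ≤ K * C * (Cv m H).card := by
  classical
  obtain ⟨c, C1, T0, hc, hlow⟩ := hL
  set C0 := C0' + 1 with hC0
  have hF' : ∀ H : ℕ, ∀ x ∈ Cv m H, (F x).1.natAbs ^ k ≤ C0 * H ∧ (F x).2.natAbs ^ k ≤ C0 * H := by
    intro H x hx
    obtain ⟨h1, h2⟩ := (hF H).2 x hx
    have : C0' * H ≤ C0 * H := Nat.mul_le_mul_right _ (by omega)
    exact ⟨h1.trans this, h2.trans this⟩
  set D := C0 * C1 + 1 with hD
  have hD1 : 1 ≤ D := by omega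
  refine ⟨((D * (T0 + 1) : ℕ) : ℝ) ^ 2 + (2 * (D : ℝ)) ^ 2 / c, by positivity,
    fun R g hg hR C hC hb H => ?_⟩
  have hsum : ∀ H T : ℕ, 1 ≤ T → (∀ x ∈ Cv m H, (F x).1.natAbs ≤ T ∧ (F x).2.natAbs ≤ T) →
      ∑ x ∈ Cv m H, R x ≤ C * (T : ℝ) ^ 2 := by
    intro H T hT hx
    refine le_trans ?_ (hb T hT)
    obtain ⟨hinj, h2⟩ := hF H
    have h3 : ∑ x ∈ Cv m H, R x ≤ ∑ t ∈ (Cv m H).image F, g t := by
      rw [sum_image hinj]
      exact sum_le_sum fun x hx' => hR H x hx'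
    refine h3.trans (sum_le_sum_of_subset_of_nonneg ?_ fun t _ _ => hg t)
    intro t ht
    obtain ⟨x, hx', rfl⟩ := mem_image.1 ht
    rw [mem_Box]
    exact hx x hx'
  set K := (Cv m H).card with hK
  by_cases hK0 : K = 0
  · have : Cv m H = ∅ := card_eq_zero.1 hK0
    rw [this, sum_empty, hK0]
    simp
  have hK1 : (1 : ℝ) ≤ K := by exact_mod_cast Nat.one_le_iff_ne_zero.2 hK0
  have hq0 : 0 ≤ C * (2 * (D : ℝ)) ^ 2 / c := by positivity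
  have hr0 : 0 ≤ C * ((D * (T0 + 1) : ℕ) : ℝ) ^ 2 := by positivity
  have heq : (((D * (T0 + 1) : ℕ) : ℝ) ^ 2 + (2 * (D : ℝ)) ^ 2 / c) * C * K =
      (C * ((D * (T0 + 1) : ℕ) : ℝ) ^ 2 + C * (2 * (D : ℝ)) ^ 2 / c) * K := by ring
  rw [heq]
  set T := Nat.findGreatest (fun t => t ^ k ≤ C0 * H) (C0 * H) with hT
  have hle : ∀ x : ℕ, x ^ k ≤ C0 * H → x ≤ T := by
    intro x hx
    apply Nat.le_findGreatest
    · exact (Nat.le_self_pow (by omega) x).trans hx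
    · exact hx
  have hTk : T ^ k ≤ C0 * H := by
    have : (fun t => t ^ k ≤ C0 * H) T :=
      Nat.findGreatest_spec (P := fun t => t ^ k ≤ C0 * H) (Nat.zero_le _)
        (by rw [zero_pow (by omega)]; exact Nat.zero_le _)
    exact this
  have hxT : ∀ x ∈ Cv m H, (F x).1.natAbs ≤ T ∧ (F x).2.natAbs ≤ T := fun x hx =>
    ⟨hle _ (hF' H x hx).1, hle _ (hF' H x hx).2⟩
  rcases Nat.lt_or_ge T (D * (T0 + 1)) with hlt | hge
  · have h1 := hsum H (D * (T0 + 1)) (Nat.mul_pos hD1 (Nat.succ_pos _)) fun x hx =>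
      ⟨(hxT x hx).1.trans hlt.le, (hxT x hx).2.trans hlt.le⟩
    calc _ ≤ C * ((D * (T0 + 1) : ℕ) : ℝ) ^ 2 := h1
      _ ≤ C * ((D * (T0 + 1) : ℕ) : ℝ) ^ 2 * K := le_mul_of_one_le_right hr0 hK1
      _ ≤ _ := by
        apply mul_le_mul_of_nonneg_right _ (by linarith)
        linarith
  · have hT1 : 1 ≤ T := (Nat.mul_pos hD1 (Nat.succ_pos _)).trans_le hge
    have h1 := hsum H T hT1 hxT
    set T' := T / D with hT'
    have hT'0 : T0 + 1 ≤ T' := by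
      rw [hT', Nat.le_div_iff_mul_le hD1, mul_comm]
      exact hge
    have h2 : T' * D ≤ T := Nat.div_mul_le_self T D
    have h3 : C1 * T' ^ k ≤ H := by
      have a1 : (T' * D) ^ k ≤ C0 * H := (Nat.pow_le_pow_left h2 k).trans hTk
      rw [mul_pow] at a1
      have a2 : D ≤ D ^ k := Nat.le_self_pow (by omega) D
      have a3 : T' ^ k * (C0 * C1) ≤ C0 * H :=
        (Nat.mul_le_mul_left _ (by omega : C0 * C1 ≤ D ^ k)).trans a1
      have a4 : C0 * (C1 * T' ^ k) ≤ C0 * H := by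
        calc C0 * (C1 * T' ^ k) = T' ^ k * (C0 * C1) := by ring
          _ ≤ _ := a3
      exact Nat.le_of_mul_le_mul_left a4 (by omega)
    have h4 := hlow T' H (by omega) h3
    have h5 : T ≤ 2 * D * T' := by
      have a1 : T < D * (T' + 1) := by
        rw [mul_comm]
        exact Nat.lt_mul_of_div_lt (by rw [← hT']; omega) hD1
      have a2 : D * (T' + 1) ≤ 2 * D * T' := by nlinarith
      omega
    have h6 : (T : ℝ) ≤ 2 * D * T' := by exact_mod_cast h5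
    calc _ ≤ C * (T : ℝ) ^ 2 := h1
      _ ≤ C * (2 * D * T') ^ 2 := by
        apply mul_le_mul_of_nonneg_left _ hC
        exact pow_le_pow_left₀ (Nat.cast_nonneg T) h6 2
      _ = C * (2 * (D : ℝ)) ^ 2 / c * (c * (T' : ℝ) ^ 2) := by
        field_simp
      _ ≤ C * (2 * (D : ℝ)) ^ 2 / c * K := mul_le_mul_of_nonneg_left h4 hq0
      _ ≤ _ := by
        apply mul_le_mul_of_nonneg_right _ (by linarith)
        linarith

open Classical in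
/-- the square of the order of the 2-Selmer group of `y² = x (x - D a) (x - D b)` -/
noncomputable def GD (D : ℤ) (t : ℤ × ℤ) : ℝ :=
  if t.1 ≠ 0 ∧ t.2 ≠ 0 ∧ t.1 ≠ t.2 then ((Sel (D * t.1) (D * t.2)).ncard : ℝ) ^ 2 else 0

lemma GD_nonneg (D : ℤ) (t : ℤ × ℤ) : 0 ≤ GD D t := by
  unfold GD
  split_ifs
  · positivity
  · exact le_rfl

lemma box_GD (h1 : AVGN) (h2 : SOM) : ∃ C : ℝ, 0 ≤ C ∧ ∀ D : ℤ, D ≠ 0 → ∀ T : ℕ, 1 ≤ T →
    ∑ t ∈ Box T, GD D t ≤ C * 128 ^ D.natAbs.primeFactors.card * (T : ℝ) ^ 2 := by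
  classical
  obtain ⟨C1, hC1, h1⟩ := h1 1
  obtain ⟨C2, hC2, h2⟩ := h2
  refine ⟨9 * C1 * C2, by positivity, fun D hD T hT => ?_⟩
  obtain ⟨Q, hQ⟩ : ∃ Q : ℝ, Q = 128 ^ D.natAbs.primeFactors.card := ⟨_, rfl⟩
  have hQ0 : 0 ≤ Q := by rw [hQ]; positivity
  rw [← hQ]
  -- decomposition with respect to the greatest common divisor
  set S := (Box T).filter fun t : ℤ × ℤ => t.1 ≠ 0 ∧ t.2 ≠ 0 ∧ t.1 ≠ t.2 with hS
  have e1 : ∑ t ∈ Box T, GD D t = ∑ t ∈ S, GD D t := by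
    symm
    apply sum_subset (filter_subset _ _)
    intro t ht ht2
    unfold GD
    rw [if_neg]
    intro h
    exact ht2 (mem_filter.2 ⟨ht, h⟩)
  let F : ℤ × ℤ → (Σ _ : ℕ, ℤ × ℤ) := fun t =>
    ⟨Int.gcd t.1 t.2, (t.1 / (Int.gcd t.1 t.2 : ℤ), t.2 / (Int.gcd t.1 t.2 : ℤ))⟩
  have hdiv : ∀ t : ℤ × ℤ, (Int.gcd t.1 t.2 : ℤ) * (t.1 / (Int.gcd t.1 t.2 : ℤ)) = t.1 ∧
      (Int.gcd t.1 t.2 : ℤ) * (t.2 / (Int.gcd t.1 t.2 : ℤ)) = t.2 := fun t =>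
    ⟨Int.mul_ediv_cancel' (Int.gcd_dvd_left _ _), Int.mul_ediv_cancel' (Int.gcd_dvd_right _ _)⟩
  have hinj : Set.InjOn F S := by
    intro t _ t' _ h
    have g1 : Int.gcd t.1 t.2 = Int.gcd t'.1 t'.2 := congrArg Sigma.fst h
    have g2 : (t.1 / (Int.gcd t.1 t.2 : ℤ), t.2 / (Int.gcd t.1 t.2 : ℤ)) =
        (t'.1 / (Int.gcd t'.1 t'.2 : ℤ), t'.2 / (Int.gcd t'.1 t'.2 : ℤ)) :=
      congrArg (fun x : (Σ _ : ℕ, ℤ × ℤ) => x.2) h
    rw [Prod.mk.injEq] at g2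
    obtain ⟨a1, a2⟩ := hdiv t
    obtain ⟨b1, b2⟩ := hdiv t'
    ext
    · rw [← a1, ← b1, g2.1, g1]
    · rw [← a2, ← b2, g2.2, g1]
  have hmem : ∀ t ∈ S, F t ∈ (Icc 1 T).sigma (fun g => Box (T / g)) ∧
      GD D t = SS (D * ((F t).1 : ℤ)) (F t).2 := by
    intro t ht
    obtain ⟨ht1, t1, t2, t3⟩ := mem_filter.1 ht
    rw [mem_Box] at ht1
    obtain ⟨a1, a2⟩ := hdiv t
    have hg0 : 0 < Int.gcd t.1 t.2 := Int.gcd_pos_of_ne_zero_left _ t1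
    have hgT : Int.gcd t.1 t.2 ≤ T := by
      have : Int.gcd t.1 t.2 ≤ t.1.natAbs :=
        Nat.le_of_dvd (by omega) (Int.natCast_dvd.1 (Int.gcd_dvd_left _ _))
      omega
    have hb : ∀ x y : ℤ, (Int.gcd t.1 t.2 : ℤ) * x = y → y.natAbs ≤ T →
        x.natAbs ≤ T / Int.gcd t.1 t.2 := by
      intro x y hxy hy
      rw [Nat.le_div_iff_mul_le hg0]
      rw [← hxy, Int.natAbs_mul, Int.natAbs_natCast] at hy
      linarith
    refine ⟨?_, ?_⟩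
    · rw [mem_sigma, mem_Icc, mem_Box]
      exact ⟨⟨hg0, hgT⟩, hb _ _ a1 ht1.1, hb _ _ a2 ht1.2⟩
    · unfold GD SS
      rw [if_pos ⟨t1, t2, t3⟩, if_pos]
      · change _ = ((Sel (D * (Int.gcd t.1 t.2 : ℤ) * (t.1 / (Int.gcd t.1 t.2 : ℤ)))
          (D * (Int.gcd t.1 t.2 : ℤ) * (t.2 / (Int.gcd t.1 t.2 : ℤ)))).ncard : ℝ) ^ 2
        rw [mul_assoc, mul_assoc, a1, a2]
      · refine ⟨?_, ?_, ?_, ?_⟩
        · exact Int.isCoprime_iff_gcd_eq_one.2 (Int.gcd_ediv_gcd_ediv_gcd hg0)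
        · intro h
          apply t1
          change t.1 / (Int.gcd t.1 t.2 : ℤ) = 0 at h
          rw [← a1, h, mul_zero]
        · intro h
          apply t2
          change t.2 / (Int.gcd t.1 t.2 : ℤ) = 0 at h
          rw [← a2, h, mul_zero]
        · intro h
          apply t3
          change t.1 / (Int.gcd t.1 t.2 : ℤ) = t.2 / (Int.gcd t.1 t.2 : ℤ) at h
          exact a1.symm.trans ((congrArg (fun x => (Int.gcd t.1 t.2 : ℤ) * x) h).trans a2)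
  have e2 : ∑ t ∈ S, GD D t ≤
      ∑ x ∈ (Icc 1 T).sigma (fun g => Box (T / g)), SS (D * (x.1 : ℤ)) x.2 := by
    calc ∑ t ∈ S, GD D t = ∑ t ∈ S, SS (D * ((F t).1 : ℤ)) (F t).2 :=
          sum_congr rfl fun t ht => (hmem t ht).2
      _ = ∑ x ∈ S.image F, SS (D * (x.1 : ℤ)) x.2 := by rw [sum_image hinj]
      _ ≤ _ := sum_le_sum_of_subset_of_nonneg (fun x hx => by
          obtain ⟨t, ht, rfl⟩ := mem_image.1 hx
          exact (hmem t ht).1) fun x _ _ => SS_nonneg _ _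
  rw [e1]
  refine e2.trans ?_
  rw [sum_sigma]
  have e3 : ∀ g ∈ Icc 1 T, ∑ s ∈ Box (T / g), SS (D * (g : ℤ)) s ≤
      9 * C1 * Q * (T : ℝ) ^ 2 * ((128 : ℝ) ^ g.primeFactors.card / (g : ℝ) ^ 2) := by
    intro g hg
    rw [mem_Icc] at hg
    have hg0 : (0 : ℝ) < g := by exact_mod_cast hg.1
    have hgz : D * (g : ℤ) ≠ 0 := mul_ne_zero hD (by exact_mod_cast (by omega : g ≠ 0))
    have f5 : (128 : ℝ) ^ (D * (g : ℤ)).natAbs.primeFactors.card ≤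
        Q * 128 ^ g.primeFactors.card := by
      rw [hQ, ← pow_add, Int.natAbs_mul, Int.natAbs_natCast]
      refine pow_le_pow_right₀ (by norm_num) ?_
      rw [Nat.primeFactors_mul (Int.natAbs_ne_zero.2 hD) (by omega)]
      exact card_union_le _ _
    have h3 := box_uni (g := SS (D * (g : ℤ))) (A := C1 * (Q * 128 ^ g.primeFactors.card))
      (by positivity)
      (fun N1 N2 X hX b1 b2 => by
        have h6 := h1 (D * (g : ℤ)) N1 N2 X hgz hX b1 b2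
        refine h6.trans ?_
        exact mul_le_mul_of_nonneg_right (mul_le_mul_of_nonneg_left f5 hC1) (by positivity))
      (T := T / g) ((Nat.one_le_div_iff hg.1).2 hg.2)
    refine h3.trans ?_
    have h4 : (((T / g : ℕ) : ℝ)) ^ 2 ≤ ((T : ℝ) / g) ^ 2 :=
      pow_le_pow_left₀ (Nat.cast_nonneg _) Nat.cast_div_le 2
    calc C1 * (Q * 128 ^ g.primeFactors.card) * (9 * (((T / g : ℕ) : ℝ)) ^ 2)
        ≤ C1 * (Q * 128 ^ g.primeFactors.card) * (9 * ((T : ℝ) / g) ^ 2) := by gcongr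
      _ = _ := by
        field_simp
  refine (sum_le_sum e3).trans ?_
  rw [← mul_sum]
  calc 9 * C1 * Q * (T : ℝ) ^ 2 * ∑ g ∈ Icc 1 T, (128 : ℝ) ^ g.primeFactors.card / (g : ℝ) ^ 2
      ≤ 9 * C1 * Q * (T : ℝ) ^ 2 * C2 := mul_le_mul_of_nonneg_left (h2 T) (by positivity)
    _ = 9 * C1 * C2 * Q * (T : ℝ) ^ 2 := by ring

/-- the second moment of the 2-Selmer groups of the twists by `D`, by the height of the curve -/
theorem twist_height : ∃ C : ℝ, 0 ≤ C ∧ ∀ D : ℤ, D ≠ 0 → ∀ H : ℕ,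
    ∑ c ∈ Cv 2 H, ((2 : ℝ) ^ Module.finrank ℤ
      (Sh (D ^ 2 * c.1) (D ^ 3 * c.2)).toAffine.Point) ^ 2 ≤
      C * 128 ^ D.natAbs.primeFactors.card * (Cv 2 H).card := by
  classical
  have h1 : AVGN := Pool.Agent.W307.FK.avgn_of Pool.Agent.W307.FK.expf
  have h2 : SOM := Pool.Agent.W334.FK.som
  have h4 : LOW 2 6 := Pool.Agent.W672.FK.lowf
  obtain ⟨F, hinj, hF⟩ := Pool.Agent.W513.FK.parf
  have hmem : ∀ H, ∀ c ∈ Cv 2 H, 4 * c.1 ^ 3 + 27 * c.2 ^ 2 ≠ 0 ∧ 4 * |c.1| ^ 3 ≤ H ∧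
      HasT 2 (Sh c.1 c.2) := by
    intro H c hc
    unfold Cv at hc
    obtain ⟨_, a1, a2, _, _, a3⟩ := mem_filter.1 hc
    exact ⟨a1, a2, a3⟩
  let F' : ℤ × ℤ → ℤ × ℤ := fun c => (((F c).1 : ℤ) * (F c).2.1, ((F c).1 : ℤ) * (F c).2.2)
  have key : ∀ H, ∀ c ∈ Cv 2 H, (F' c).1.natAbs ^ 6 ≤ 16 * H ∧
        (F' c).2.natAbs ^ 6 ≤ 16 * H := by
    intro H c hc
    obtain ⟨a1, a2, a3⟩ := hmem H c hc
    obtain ⟨b1, b2, b3, b4, b5, e1, e2, e3, hr, d1, d2⟩ := hF c a1 a3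
    obtain ⟨r1, r2⟩ := root_bd hr
    refine ⟨?_, ?_⟩
    · rw [d1] at r1
      exact size_bd r1 a2
    · rw [d2] at r2
      exact size_bd r2 a2
  have key2 : ∀ D : ℤ, D ≠ 0 → ∀ H, ∀ c ∈ Cv 2 H, ((2 : ℝ) ^ Module.finrank ℤ
      (Sh (D ^ 2 * c.1) (D ^ 3 * c.2)).toAffine.Point) ^ 2 ≤ GD D (F' c) := by
    intro D hD H c hc
    obtain ⟨a1, a2, a3⟩ := hmem H c hc
    obtain ⟨b1, b2, b3, b4, b5, e1, e2, e3, hr, d1, d2⟩ := hF c a1 a3
    have hg : ((F c).1 : ℤ) ≠ 0 := by exact_mod_cast (by omega : (F c).1 ≠ 0)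
    have hne1 : (F' c).1 ≠ 0 := mul_ne_zero hg b3
    have hne2 : (F' c).2 ≠ 0 := mul_ne_zero hg b4
    have hne3 : (F' c).1 ≠ (F' c).2 := fun h => b5 (mul_left_cancel₀ hg h)
    have hfin := sel_fin Pool.Agent.W410.FK.seld (mul_ne_zero hD hne1) (mul_ne_zero hD hne2)
      (fun h => hne3 (mul_left_cancel₀ hD h))
    have hdd : 4 * (D ^ 2 * c.1) ^ 3 + 27 * (D ^ 3 * c.2) ^ 2 ≠ 0 := by
      have e : 4 * (D ^ 2 * c.1) ^ 3 + 27 * (D ^ 3 * c.2) ^ 2 =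
        D ^ 6 * (4 * c.1 ^ 3 + 27 * c.2 ^ 2) := by ring
      rw [e]
      exact mul_ne_zero (pow_ne_zero 6 hD) a1
    have hr' := Pool.Agent.W307.RG.roots_tw hr D
    obtain ⟨f1, f2⟩ := Pool.Agent.W410.FK.selc (D ^ 2 * c.1) (D ^ 3 * c.2) (D * e1) (D * e2)
      (D * e3) (D * (F' c).1) (D * (F' c).2) 1 hdd hr' one_ne_zero
      (by rw [one_pow, mul_one, ← mul_sub, d1]) (by rw [one_pow, mul_one, ← mul_sub, d2]) hfin
    have f3 := Pool.Agent.W402.FK.rks (D ^ 2 * c.1) (D ^ 3 * c.2) (D * e1) (D * e2) (D * e3) hdd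
      hr' f1
    unfold GD
    rw [if_pos ⟨hne1, hne2, hne3⟩]
    have f4 : ((2 : ℝ) ^ Module.finrank ℤ (Sh (D ^ 2 * c.1) (D ^ 3 * c.2)).toAffine.Point) ≤
        ((Sel (D * (F' c).1) (D * (F' c).2)).ncard : ℝ) := by
      exact_mod_cast f3.trans f2
    exact pow_le_pow_left₀ (by positivity) f4 2
  have hinj' : ∀ H, Set.InjOn F' (Cv 2 H : Set (ℤ × ℤ)) := by
    intro H c hc c' hc' h
    obtain ⟨a1, _, a3⟩ := hmem H c hc
    obtain ⟨a1', _, a3'⟩ := hmem H c' hc'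
    obtain ⟨b1, b2, _⟩ := hF c a1 a3
    obtain ⟨b1', b2', _⟩ := hF c' a1' a3'
    apply hinj ⟨a1, a3⟩ ⟨a1', a3'⟩
    have hgcd : ∀ x : ℕ × ℤ × ℤ, IsCoprime x.2.1 x.2.2 →
        Int.gcd ((x.1 : ℤ) * x.2.1) ((x.1 : ℤ) * x.2.2) = x.1 := by
      intro x hx
      rw [Int.gcd_mul_left, Int.isCoprime_iff_gcd_eq_one.1 hx, mul_one, Int.natAbs_natCast]
    have g1 : (F c).1 = (F c').1 := by
      rw [← hgcd _ b2, ← hgcd _ b2']
      have k1 := congrArg Prod.fst h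
      have k2 := congrArg Prod.snd h
      change ((F c).1 : ℤ) * (F c).2.1 = ((F c').1 : ℤ) * (F c').2.1 at k1
      change ((F c).1 : ℤ) * (F c).2.2 = ((F c').1 : ℤ) * (F c').2.2 at k2
      rw [k1, k2]
    have hg : ((F c).1 : ℤ) ≠ 0 := by exact_mod_cast (by omega : (F c).1 ≠ 0)
    have k1 : ((F c).1 : ℤ) * (F c).2.1 = ((F c').1 : ℤ) * (F c').2.1 := congrArg Prod.fst h
    have k2 : ((F c).1 : ℤ) * (F c).2.2 = ((F c').1 : ℤ) * (F c').2.2 := congrArg Prod.snd h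
    rw [← g1] at k1 k2
    exact Prod.ext g1 (Prod.ext (mul_left_cancel₀ hg k1) (mul_left_cancel₀ hg k2))
  obtain ⟨K, hK, hfin⟩ := final_uni (by norm_num) h4 16 F' (fun H => ⟨hinj' H, key H⟩)
  obtain ⟨C, hC, hbox⟩ := box_GD h1 h2
  refine ⟨K * C, by positivity, fun D hD H => ?_⟩
  have h5 := hfin (fun c => ((2 : ℝ) ^ Module.finrank ℤ
      (Sh (D ^ 2 * c.1) (D ^ 3 * c.2)).toAffine.Point) ^ 2) (GD D) (GD_nonneg D) (key2 D hD)
      (C * 128 ^ D.natAbs.primeFactors.card) (by positivity) (hbox D hD) H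
  rw [← mul_assoc] at h5
  exact h5

end Pool.Agent.W307.AT
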