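import Mathlib
import Pool.Agent.W307.FK.Stm

/-!
# Project AT: the parts of `E(F)` belonging to the quadratic characters

Statements of the parts. `F` is a finite Galois extension of `ℚ`, `χ` a homomorphism of its Galois
group to `{±1}`.
-/

set_option autoImplicit false

namespace Pool.Agent.W307.AT

open Pool.Agent.W307.RT WeierstrassCurve

/-- CHI: the quadratic field cut out by a quadratic character. -/
def CHI : Prop := ∀ (F : Type) [Field F] [NumberField F] [IsGalois ℚ F]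
  (χ : (F ≃ₐ[ℚ] F) →* ℤˣ), ∃ (D : ℤ) (s : F), Squarefree D ∧ s ^ 2 = (D : F) ∧
    ∀ σ : F ≃ₐ[ℚ] F, σ s = (((χ σ : ℤˣ) : ℤ) : F) * s

open Classical in
/-- the points `P` of `y² = x³ + A x + B` over `F` with `σ P = χ(σ) P` for all `σ` -/
noncomputable def Part (F : Type) [Field F] [NumberField F] (χ : (F ≃ₐ[ℚ] F) →* ℤˣ)
    (W : WeierstrassCurve ℚ) : AddSubgroup (W.baseChange F).toAffine.Point where
  carrier := {P | ∀ σ : F ≃ₐ[ℚ] F, Affine.Point.map (W' := W.toAffine) (σ : F →ₐ[ℚ] F) P =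
    ((χ σ : ℤˣ) : ℤ) • P}
  zero_mem' := fun σ => by rw [map_zero, smul_zero]
  add_mem' := fun {P Q} hP hQ σ => by rw [map_add, hP σ, hQ σ, smul_add]
  neg_mem' := fun {P} hP σ => by rw [map_neg, hP σ, smul_neg]

open Classical in
/-- DSC: the part of `E(F)` belonging to `χ` embeds in the group of the rational points of the
twist. -/
def DSC : Prop := ∀ (F : Type) [Field F] [NumberField F] [IsGalois ℚ F]
  (χ : (F ≃ₐ[ℚ] F) →* ℤˣ) (D : ℤ) (s : F), D ≠ 0 → s ^ 2 = (D : F) →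
  (∀ σ : F ≃ₐ[ℚ] F, σ s = (((χ σ : ℤˣ) : ℤ) : F) * s) → ∀ A B : ℤ,
  ∃ φ : Part F χ (Sh A B) →+ (Sh (D ^ 2 * A) (D ^ 3 * B)).toAffine.Point, Function.Injective φ

end Pool.Agent.W307.AT
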